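import Pool.Agent.Q256.HX.Stm

/-!
# Project HX, job HBAK: orbits of bounded height over function fields
-/

set_option autoImplicit false

open MvPolynomial Filter Topology

namespace Pool.Agent.Q285.HX

open Pool.Agent.Q256.HX Pool.Agent.Q256.FX

theorem hbak (h1 : S_hpf) (h2 : S_hloc) (h3 : S_hcurve) (h4 : S_hjac) (h5 : S_hrig) : S_hbak := by
  intro k K _ _ _ _ hfg t ht halg F δ hF hδ x hx hinj m b θ hθ
  obtain ⟨Q, hQ⟩ := h1 k K hfg t ht halg
  obtain ⟨c, hc, hxc⟩ := h2 k K Q F δ hF hδ x hx t ht m b θ hθ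
  obtain ⟨L, hL, hLm⟩ := hQ c hc
  have hrec : ∀ n : ℕ, x ((n + 2 : ℕ) : ℤ) = F.eval (x ((n + 1 : ℕ) : ℤ)) - δ * x (n : ℤ) := by
    intro n
    have h := hx ((n + 1 : ℕ) : ℤ)
    have e1 : ((n + 1 : ℕ) : ℤ) + 1 = ((n + 2 : ℕ) : ℤ) := by push_cast; ring
    have e2 : ((n + 1 : ℕ) : ℤ) - 1 = (n : ℤ) := by push_cast; ring
    rw [e1, e2] at h
    rw [← h]
    ring
  have hinj' : Function.Injective (fun n : ℕ => (x (n : ℤ), x ((n + 1 : ℕ) : ℤ))) := by
    intro a a' h
    have h' : (x (a : ℤ), x ((a : ℤ) + 1)) = (x (a' : ℤ), x ((a' : ℤ) + 1)) := by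
      simpa using h
    have := hinj h'
    exact_mod_cast this
  have hδa : IsAlgebraic k δ :=
    h4 k K L hL F δ (fun n : ℕ => x (n : ℤ)) (fun n => hLm _ (hxc _)) hrec
      (h3 K F δ hF hδ (fun n : ℕ => x (n : ℤ)) hrec hinj')
  exact ⟨hδa, h5 k K Q F δ hF hδ hδa x hx hinj c hc hxc⟩

theorem hbakn (h : S_hbak) (h2 : S_inter) (h3 : S_conv) : S_hbakn := by
  intro k K _ _ _ _ hfg n y hy halg F δ hF hδ x hx hinj m b θ hθ
  have main : ∀ i : Fin n, IsAlgebraic (IntermediateField.adjoin k {z | ∃ j, j ≠ i ∧ z = y j}) δ ∧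
      ∀ i' j p q : ℤ, x p ≠ x q →
        IsAlgebraic (IntermediateField.adjoin k {z | ∃ j, j ≠ i ∧ z = y j})
          ((x i' - x j) / (x p - x q)) := by
    intro i
    set S : Set K := {z | ∃ j, j ≠ i ∧ z = y j} with hS
    set k' := IntermediateField.adjoin k S with hk'
    have : CharZero k' := charZero_of_injective_algebraMap (algebraMap k k').injective
    have hSi : S = y '' {j | j ≠ i} := by
      ext z
      constructor
      · rintro ⟨j, hj, rfl⟩
        exact ⟨j, hj, rfl⟩
      · rintro ⟨j, hj, rfl⟩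
        exact ⟨j, hj, rfl⟩
    have hfg' : (⊤ : IntermediateField k' K).FG := by
      rw [IntermediateField.fg_top_iff] at hfg ⊢
      exact Algebra.EssFiniteType.of_comp k k' K
    have htr : Transcendental k' (y i) := by
      rw [hk', IntermediateField.transcendental_adjoin_iff, hSi]
      exact hy.transcendental_adjoin (by simp)
    have hle : IntermediateField.adjoin k (Set.range y) ≤
        (IntermediateField.adjoin k' {y i}).restrictScalars k := by
      rw [IntermediateField.adjoin_le_iff]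
      rintro _ ⟨j, rfl⟩
      by_cases hj : j = i
      · subst hj
        exact IntermediateField.mem_adjoin_simple_self k' (y j)
      · have hmem : y j ∈ k' := IntermediateField.subset_adjoin k S ⟨j, hj, rfl⟩
        exact (IntermediateField.adjoin k' {y i}).algebraMap_mem ⟨y j, hmem⟩
    have halg' : Algebra.IsAlgebraic (IntermediateField.adjoin k' {y i}) K := by
      refine ⟨fun c => ?_⟩
      exact (halg c).ringHom_of_comp_eq (IntermediateField.inclusion hle).toRingHom (RingHom.id K)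
        (IntermediateField.inclusion hle).toRingHom.injective rfl
    refine h k' K hfg' (y i) htr halg' F δ hF hδ x hx hinj m b θ (fun j => ?_)
    obtain ⟨w, hw, hw'⟩ := hθ j
    refine ⟨w, hw, fun l => ?_⟩
    obtain ⟨G, hG, hGd, hG0⟩ := hw' l
    exact h3 k K n b y hy (w l) G hG hGd hG0 i
  refine ⟨h2 k K n y hy halg _ fun i => (main i).1, fun i' j p q hpq => ?_⟩
  exact h2 k K n y hy halg _ fun i => (main i).2 i' j p q hpq

end Pool.Agent.Q285.HX
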