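import Pool.Agent.Q256.HX.Stm

/-!
# Project HX, job HHT: the height of the periodic points of a generalized Hénon map
-/

set_option autoImplicit false

open Height Height.AdmissibleAbsValues

namespace Pool.Agent.Q285.HX.Ht

open Finset Multiset in
/-- from local bounds to a bound of the height -/
lemma height_le {K : Type} [Field K] [AdmissibleAbsValues K] {α : Type} (s : Finset α) (y : α → K)
    (z : K) (C : ℝ) (hC : 0 ≤ C)
    (ha : ∀ v : AbsoluteValue K ℝ, max (v z) 1 ≤ C * ∏ a ∈ s, max (v (y a)) 1)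
    (hn : ∀ v : AbsoluteValue K ℝ, IsNonarchimedean v → max (v z) 1 ≤ ∏ a ∈ s, max (v (y a)) 1) :
    mulHeight₁ z ≤ C ^ (totalWeight K) * ∏ a ∈ s, mulHeight₁ (y a) := by
  simp only [mulHeight₁_eq, totalWeight]
  rw [prod_mul_distrib, ← prod_replicate, ← map_const, ← finprod_prod_comm _ _ (by fun_prop),
    ← prod_map_prod, ← mul_assoc, ← prod_map_mul]
  simp only [Function.const_apply]
  gcongr
  · exact finprod_nonneg fun _ ↦ by positivity
  · exact prod_map_nonneg fun _ h ↦ by positivity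
  · exact prod_map_le_prod_map₀ _ _ (fun _ _ ↦ by positivity) fun _ _ ↦ ha _
  · exact finprod_le_finprod (by fun_prop) (fun _ ↦ by grind) (by fun_prop) <|
      fun v ↦ hn _ (isNonarchimedean _ v.prop)

/-- the coefficients which enter the bound -/
noncomputable def yy {K : Type} [Field K] (F : Polynomial K) (δ : K) (d i : ℕ) : K :=
  if i < d then F.coeff i else if i = d then δ else (F.coeff d)⁻¹

/-- the terms of the recursion -/
noncomputable def TT {K : Type} [Field K] (F : Polynomial K) (δ : K) (x : ℤ → K) (n : ℤ)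
    (d i : ℕ) : K :=
  if i < d then -(F.coeff i * x n ^ i) else if i = d then δ * x (n - 1) else x (n + 1)

lemma sum_TT {K : Type} [Field K] (F : Polynomial K) (δ : K) (x : ℤ → K)
    (hx : ∀ n, x (n + 1) + δ * x (n - 1) = F.eval (x n)) (n : ℤ) :
    F.coeff F.natDegree * x n ^ F.natDegree =
      ∑ i ∈ Finset.range (F.natDegree + 2), TT F δ x n F.natDegree i := by
  have h1 := hx n
  rw [Polynomial.eval_eq_sum_range, Finset.sum_range_succ] at h1
  rw [Finset.sum_range_succ, Finset.sum_range_succ]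
  have h2 : ∑ i ∈ Finset.range F.natDegree, TT F δ x n F.natDegree i =
      -∑ i ∈ Finset.range F.natDegree, F.coeff i * x n ^ i := by
    rw [← Finset.sum_neg_distrib]
    refine Finset.sum_congr rfl fun i hi => ?_
    rw [Finset.mem_range] at hi
    simp [TT, hi]
  rw [h2]
  have h3 : TT F δ x n F.natDegree F.natDegree = δ * x (n - 1) := by simp [TT]
  have h4 : TT F δ x n F.natDegree (F.natDegree + 1) = x (n + 1) := by simp [TT]
  rw [h3, h4]
  linear_combination -h1

lemma one_le_fac {K : Type} [Field K] (v : AbsoluteValue K ℝ) (y : ℕ → K) (s : Finset ℕ) :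
    1 ≤ ∏ i ∈ s, max (v (y i)) 1 :=
  Finset.one_le_prod fun _ _ => le_max_right _ _

lemma fac_le {K : Type} [Field K] (v : AbsoluteValue K ℝ) (y : ℕ → K) (s : Finset ℕ) {i : ℕ}
    (hi : i ∈ s) : v (y i) ≤ ∏ i ∈ s, max (v (y i)) 1 := by
  calc v (y i) ≤ max (v (y i)) 1 := le_max_left _ _
    _ ≤ ∏ i ∈ s, max (v (y i)) 1 := by
      have h := Finset.mul_prod_erase s (fun i => max (v (y i)) 1) hi
      rw [← h]
      exact le_mul_of_one_le_right (by positivity) (one_le_fac v y _)

/-- the local bound from the bound of the sum -/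
lemma local_bound {K : Type} [Field K] (F : Polynomial K) (δ : K) (hF : 2 ≤ F.natDegree)
    (x : ℤ → K) (hx : ∀ n, x (n + 1) + δ * x (n - 1) = F.eval (x n))
    (v : AbsoluteValue K ℝ) {n₀ : ℤ} (hn₀ : ∀ n, v (x n) ≤ v (x n₀)) {C : ℝ} (hC : 1 ≤ C)
    (hsum : ∀ (T : ℕ → K) (B : ℝ), (∀ i ∈ Finset.range (F.natDegree + 2), v (T i) ≤ B) →
      v (∑ i ∈ Finset.range (F.natDegree + 2), T i) ≤ C * B) (n : ℤ) :
    max (v (x n)) 1 ≤
      C * ∏ i ∈ Finset.range (F.natDegree + 2), max (v (yy F δ F.natDegree i)) 1 := by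
  set d := F.natDegree with hd
  set P := ∏ i ∈ Finset.range (d + 1), max (v (yy F δ d i)) 1 with hP
  have hP1 : 1 ≤ P := one_le_fac v _ _
  have hlast : yy F δ d (d + 1) = (F.coeff d)⁻¹ := by simp [yy]
  have hprod : ∏ i ∈ Finset.range (d + 2), max (v (yy F δ d i)) 1 =
      P * max (v (F.coeff d)⁻¹) 1 := by
    rw [Finset.prod_range_succ, hlast]
  rw [hprod]
  have hm1 : 1 ≤ max (v (F.coeff d)⁻¹) 1 := le_max_right _ _
  rcases le_or_gt (v (x n₀)) 1 with hM | hM
  · have h1 : max (v (x n)) 1 ≤ 1 := max_le ((hn₀ n).trans hM) le_rfl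
    refine h1.trans ?_
    have h2 : 1 ≤ P * max (v (F.coeff d)⁻¹) 1 := one_le_mul_of_one_le_of_one_le hP1 hm1
    exact one_le_mul_of_one_le_of_one_le hC h2
  · set M := v (x n₀) with hMdef
    have hM0 : 0 < M := by linarith
    have hlead : F.coeff d ≠ 0 := by
      rw [hd, Polynomial.coeff_natDegree]
      intro h
      rw [Polynomial.leadingCoeff_eq_zero] at h
      rw [hd, h] at hF
      simp at hF
    have hv0 : 0 < v (F.coeff d) := v.pos hlead
    have hMd : M ≤ M ^ (d - 1) := by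
      calc M = M ^ 1 := (pow_one M).symm
        _ ≤ M ^ (d - 1) := pow_le_pow_right₀ hM.le (by omega)
    have hM1d : 1 ≤ M ^ (d - 1) := one_le_pow₀ hM.le
    have hT : ∀ i ∈ Finset.range (d + 2), v (TT F δ x n₀ d i) ≤ M ^ (d - 1) * P := by
      intro i hi
      rw [Finset.mem_range] at hi
      unfold TT
      split_ifs with h1 h2
      · rw [v.map_neg, v.map_mul, v.map_pow]
        have h3 : v (F.coeff i) ≤ P := by
          have h7 := fac_le v (yy F δ d) (Finset.range (d + 1)) (i := i)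
            (Finset.mem_range.2 (by omega))
          have h8 : yy F δ d i = F.coeff i := by simp [yy, h1]
          rwa [h8] at h7
        have h4 : M ^ i ≤ M ^ (d - 1) := pow_le_pow_right₀ hM.le (by omega)
        rw [mul_comm]
        exact mul_le_mul h4 h3 (v.nonneg _) (by positivity)
      · rw [v.map_mul]
        have h3 : v δ ≤ P := by
          have h7 := fac_le v (yy F δ d) (Finset.range (d + 1)) (i := d)
            (Finset.mem_range.2 (by omega))
          have h8 : yy F δ d d = δ := by simp [yy]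
          rwa [h8] at h7
        rw [mul_comm]
        exact mul_le_mul ((hn₀ _).trans hMd) h3 (v.nonneg _) (by positivity)
      · calc v (x (n₀ + 1)) ≤ M ^ (d - 1) := (hn₀ _).trans hMd
          _ ≤ M ^ (d - 1) * P := le_mul_of_one_le_right (by positivity) hP1
    have hs := hsum _ _ hT
    rw [← sum_TT F δ x hx n₀, v.map_mul, v.map_pow] at hs
    have hdd : M ^ d = M ^ (d - 1) * M := by
      rw [← pow_succ]; congr 1; omega
    have hs2 : v (F.coeff d) * M ≤ C * P := by
      have h5 : M ^ (d - 1) * (v (F.coeff d) * M) ≤ M ^ (d - 1) * (C * P) := by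
        calc M ^ (d - 1) * (v (F.coeff d) * M) = v (F.coeff d) * M ^ d := by rw [hdd]; ring
          _ ≤ C * (M ^ (d - 1) * P) := hs
          _ = M ^ (d - 1) * (C * P) := by ring
      exact le_of_mul_le_mul_left h5 (by positivity)
    have hs3 : M ≤ C * (P * max (v (F.coeff d)⁻¹) 1) := by
      have h6 : v (F.coeff d)⁻¹ = (v (F.coeff d))⁻¹ := map_inv₀ v _
      calc M = (v (F.coeff d))⁻¹ * (v (F.coeff d) * M) := by
            field_simp
        _ ≤ (v (F.coeff d))⁻¹ * (C * P) := by gcongr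
        _ = C * P * v (F.coeff d)⁻¹ := by rw [h6]; ring
        _ ≤ C * P * max (v (F.coeff d)⁻¹) 1 := by
            gcongr
            exact le_max_left _ _
        _ = _ := by ring
    refine max_le ((hn₀ n).trans hs3) (hM.le.trans hs3)

lemma exists_max {K : Type} [Field K] (x : ℤ → K) (hp : ∃ m : ℤ, m ≠ 0 ∧ ∀ n, x (n + m) = x n)
    (v : AbsoluteValue K ℝ) : ∃ n₀, ∀ n, v (x n) ≤ v (x n₀) := by
  obtain ⟨m, hm, hper⟩ := hp
  have hne : (Finset.Icc (0 : ℤ) |m|).Nonempty := ⟨0, by simp⟩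
  obtain ⟨n₀, -, hn₀⟩ := Finset.exists_max_image (Finset.Icc (0 : ℤ) |m|) (fun n => v (x n)) hne
  refine ⟨n₀, fun n => ?_⟩
  have hP : Function.Periodic x m := hper
  have h1 : x n = x (n % m) := by
    have h2 := hP.int_mul (n / m) (n % m)
    rw [← h2]
    congr 1
    have := Int.emod_add_mul_ediv n m
    simp only [Int.cast_id]
    linarith [mul_comm m (n / m)]
  rw [h1]
  refine hn₀ _ ?_
  rw [Finset.mem_Icc]
  exact ⟨Int.emod_nonneg _ hm, (Int.emod_lt_abs n hm).le⟩

theorem hht : Pool.Agent.Q256.HX.S_hht := by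
  intro d D hd
  refine ⟨(d + 2) * D + (d + 2), ?_⟩
  intro K _ _ hfin X hX F δ hFd hδ hFc hδc x hx hper n
  have hF2 : 2 ≤ F.natDegree := by rw [hFd]; exact hd
  have hX1 : (1 : ℝ) ≤ X := by exact_mod_cast (by omega : 1 ≤ X)
  have hlocA : ∀ v : AbsoluteValue K ℝ, max (v (x n)) 1 ≤ ((d + 2 : ℕ) : ℝ) *
      ∏ i ∈ Finset.range (F.natDegree + 2), max (v (yy F δ F.natDegree i)) 1 := by
    intro v
    obtain ⟨n₀, hn₀⟩ := exists_max x hper v
    refine local_bound F δ hF2 x hx v hn₀ (by exact_mod_cast (by omega : 1 ≤ d + 2)) ?_ n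
    intro T B hB
    calc v (∑ i ∈ Finset.range (F.natDegree + 2), T i)
        ≤ ∑ i ∈ Finset.range (F.natDegree + 2), v (T i) := v.sum_le _ _
      _ ≤ ∑ i ∈ Finset.range (F.natDegree + 2), B := Finset.sum_le_sum hB
      _ = ((d + 2 : ℕ) : ℝ) * B := by
        rw [Finset.sum_const, Finset.card_range, nsmul_eq_mul, hFd]
  have hlocN : ∀ v : AbsoluteValue K ℝ, IsNonarchimedean v → max (v (x n)) 1 ≤
      ∏ i ∈ Finset.range (F.natDegree + 2), max (v (yy F δ F.natDegree i)) 1 := by
    intro v hv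
    obtain ⟨n₀, hn₀⟩ := exists_max x hper v
    have h := local_bound F δ hF2 x hx v hn₀ (le_refl (1 : ℝ)) (fun T B hB => ?_) n
    · rwa [one_mul] at h
    · have hne : (Finset.range (F.natDegree + 2)).Nonempty := ⟨0, by simp⟩
      rw [one_mul]
      exact (hv.apply_sum_le_sup hne).trans (Finset.sup'_le hne _ hB)
  have h1 := height_le (Finset.range (F.natDegree + 2)) (yy F δ F.natDegree) (x n)
    ((d + 2 : ℕ) : ℝ) (by positivity) hlocA hlocN
  have h2 : ∏ i ∈ Finset.range (F.natDegree + 2), mulHeight₁ (yy F δ F.natDegree i) ≤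
      (X : ℝ) ^ (d + 2) := by
    calc ∏ i ∈ Finset.range (F.natDegree + 2), mulHeight₁ (yy F δ F.natDegree i)
        ≤ ∏ i ∈ Finset.range (F.natDegree + 2), (X : ℝ) := by
          refine Finset.prod_le_prod (fun i _ => mulHeight₁_nonneg _) fun i _ => ?_
          unfold yy
          split_ifs
          · exact hFc i
          · exact hδc
          · rw [mulHeight₁_inv]; exact hFc _
      _ = (X : ℝ) ^ (d + 2) := by rw [Finset.prod_const, Finset.card_range, hFd]
  have h3 : ((d + 2 : ℕ) : ℝ) ^ (totalWeight K) ≤ (X : ℝ) ^ ((d + 2) * D) := by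
    have h4 : ((d + 2 : ℕ) : ℝ) ≤ (X : ℝ) ^ (d + 2) := by
      have h5 : d + 2 ≤ X ^ (d + 2) := (Nat.lt_pow_self (by omega)).le
      exact_mod_cast h5
    have h6 : totalWeight K ≤ D := by rw [NumberField.totalWeight_eq_finrank]; exact hfin
    calc ((d + 2 : ℕ) : ℝ) ^ (totalWeight K) ≤ ((X : ℝ) ^ (d + 2)) ^ (totalWeight K) := by
          gcongr
      _ ≤ ((X : ℝ) ^ (d + 2)) ^ D := pow_le_pow_right₀ (one_le_pow₀ hX1) h6
      _ = (X : ℝ) ^ ((d + 2) * D) := (pow_mul _ _ _).symm
  calc mulHeight₁ (x n) ≤ _ := h1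
    _ ≤ (X : ℝ) ^ ((d + 2) * D) * (X : ℝ) ^ (d + 2) := by
      refine mul_le_mul h3 h2 ?_ (by positivity)
      exact Finset.prod_nonneg fun i _ => mulHeight₁_nonneg _
    _ = (X : ℝ) ^ ((d + 2) * D + (d + 2)) := (pow_add _ _ _).symm

end Pool.Agent.Q285.HX.Ht
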